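import Pool.Agent.H35.ST.Final

namespace Pool.Agent.Results.MP_1a137b_co.SpanningTrees

/-- There is `d₀` such that for every `d ≥ d₀` there are `c > 0` and `N` such that every connected
graph `G` on `n ≥ N` vertices with minimum degree at least `d` has at least `c * n ^ (d - 1)`
pairwise non-isomorphic spanning trees. -/
theorem result : ∃ d₀ : ℕ, ∀ d : ℕ, d₀ ≤ d → ∃ c : ℝ, 0 < c ∧ ∃ N : ℕ, ∀ n : ℕ, N ≤ n →
    ∀ G : SimpleGraph (Fin n), G.Connected → (∀ v, d ≤ (G.neighborSet v).ncard) →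
      c * (n : ℝ) ^ (d - 1) ≤ (H35ST.tauIso G : ℝ) :=
  H35ST.main_fin

end Pool.Agent.Results.MP_1a137b_co.SpanningTrees
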